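import Pool.Agent.N889.AO.Stm

/-!
# Project AO, part LIE: integral structure constants, and automorphisms from matrices.
-/

set_option autoImplicit false
open Polynomial Matrix

namespace Pool.Agent.N562.AO.LieP

open Pool.Agent.N889.AO

theorem exists_den {ι : Type} [Fintype ι] (a : ι → ι → ι → ℚ) : ∃ N : ℕ, 0 < N ∧
    ∃ c : ι → ι → ι → ℤ, ∀ i j k, (c i j k : ℚ) = N * a i j k := by
  refine ⟨∏ p : ι × ι × ι, (a p.1 p.2.1 p.2.2).den, Finset.prod_pos fun p _ => Rat.den_pos _, ?_⟩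
  have h : ∀ i j k, ∃ c : ℤ, (c : ℚ) =
      ((∏ p : ι × ι × ι, (a p.1 p.2.1 p.2.2).den : ℕ) : ℚ) * a i j k := by
    intro i j k
    obtain ⟨m, hm⟩ : (a i j k).den ∣ ∏ p : ι × ι × ι, (a p.1 p.2.1 p.2.2).den :=
      Finset.dvd_prod_of_mem (fun p : ι × ι × ι => (a p.1 p.2.1 p.2.2).den)
        (Finset.mem_univ (i, j, k))
    refine ⟨(a i j k).num * m, ?_⟩
    rw [hm]
    push_cast
    have := Rat.den_mul_eq_num (a i j k)
    rw [← this]
    ring
  choose c hc using h
  exact ⟨c, hc⟩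

theorem coord {ι : Type} [Fintype ι] {M : Type} [LieRing M] [LieAlgebra ℚ M]
    (b : Module.Basis ι ℚ M) (c : ι → ι → ι → ℤ)
    (h : ∀ i j, ⁅b i, b j⁆ = ∑ k, (c i j k : ℚ) • b k) (x y : M) :
    b.equivFun ⁅x, y⁆ = mulc c ℚ (b.equivFun x) (b.equivFun y) := by
  classical
  have e1 : ⁅x, y⁆ = ∑ i, ∑ j, (b.equivFun x i * b.equivFun y j) • ⁅b i, b j⁆ := by
    conv_lhs => rw [← b.sum_equivFun x, ← b.sum_equivFun y]
    simp only [sum_lie, lie_sum, smul_lie, lie_smul, Finset.smul_sum, smul_smul]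
    rw [Finset.sum_comm]
    refine Finset.sum_congr rfl fun i _ => Finset.sum_congr rfl fun j _ => ?_
    rw [mul_comm]
  rw [e1]
  funext k
  have e2 : ∀ i j, b.equivFun ⁅b i, b j⁆ k = c i j k := by
    intro i j
    rw [h, map_sum, Finset.sum_apply]
    simp only [map_smul, Pi.smul_apply, Module.Basis.equivFun_self, smul_eq_mul]
    simp
  rw [map_sum, Finset.sum_apply]
  simp only [map_sum, Finset.sum_apply, map_smul, Pi.smul_apply, e2, smul_eq_mul, mulc]
  refine Finset.sum_congr rfl fun i _ => Finset.sum_congr rfl fun j _ => by ring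

theorem t : StmLie := by
  intro ι _ _ M _ _ _ b
  obtain ⟨N, hN, c, hc⟩ := exists_den (fun i j k => b.repr ⁅b i, b j⁆ k)
  have hN0 : (N : ℚ) ≠ 0 := by exact_mod_cast hN.ne'
  set b' : Module.Basis ι ℚ M := b.isUnitSMul (w := fun _ => (N:ℚ)) (fun _ => hN0.isUnit) with hb'
  have hbi : ∀ i, b' i = (N:ℚ) • b i := fun i => Module.Basis.isUnitSMul_apply _ _
  have hcs : ∀ i j, ⁅b' i, b' j⁆ = ∑ k, (c i j k : ℚ) • b' k := by
    intro i j
    simp only [hbi, smul_lie, lie_smul, hc, smul_smul]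
    conv_lhs => rw [← b.sum_repr ⁅b i, b j⁆]
    rw [Finset.smul_sum]
    refine Finset.sum_congr rfl fun k _ => ?_
    rw [smul_smul]
    congr 1
    ring
  refine ⟨b', c, hcs, ?_⟩
  intro F hF hA
  obtain ⟨p, hp, hp0, hpz⟩ := hA
  have hdet : IsUnit F.det := by
    rw [isUnit_iff_ne_zero]
    intro h0
    have h1 := Matrix.det_eq_sign_charpoly_coeff F
    rw [h0, ← hp, Polynomial.coeff_map] at h1
    have h3 : ((-1 : ℚ) ^ Fintype.card ι) ≠ 0 := pow_ne_zero _ (by norm_num)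
    rcases hp0 with h2 | h2 <;> rw [h2] at h1 <;> (simp at h1; try exact h3 h1.symm)
  have hco : ∀ x : M, b'.equivFun (Matrix.toLinearEquiv b' F hdet x) = F *ᵥ b'.equivFun x := by
    intro x
    have := LinearMap.toMatrix_mulVec_repr b' b' (Matrix.toLin b' b' F) x
    rw [LinearMap.toMatrix_toLin] at this
    exact this.symm
  refine ⟨{ (Matrix.toLinearEquiv b' F hdet) with
    map_lie' := ?_ }, p, ?_, hp0, hpz⟩
  · intro x y
    apply b'.equivFun.injective
    change b'.equivFun (Matrix.toLinearEquiv b' F hdet ⁅x, y⁆) =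
      b'.equivFun ⁅Matrix.toLinearEquiv b' F hdet x, Matrix.toLinearEquiv b' F hdet y⁆
    rw [hco, coord b' c hcs, hF, coord b' c hcs, hco, hco]
  · rw [hp]
    have := LinearMap.charpoly_toMatrix (Matrix.toLin b' b' F) b'
    rw [LinearMap.toMatrix_toLin] at this
    rw [this]
    rfl

end Pool.Agent.N562.AO.LieP
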